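import Mathlib

/-! Adapted arrays of bounded 4-variation (in `ℓ²`), with rows of weakly bounded 4/3-variation,
and the associated Banach space. The construction is modelled on the library module
`K4H42/ICA` (the case of the quadratic variation). -/

namespace Pool.Agent.H220.IC

open Finset

/-- `ω` controls the array `S` : the fourth power of the `ℓ²` norm of every increment of `S` is at
most the increment of `ω`, and for every row the fourth power of the sum of the absolute increments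
over `n` disjoint intervals is at most `n` times the increment of `ω`. -/
def Ctl (S : ℕ → ℕ → ℝ) (ω : ℕ → ℝ) : Prop :=
  (∀ (A : Finset ℕ) (s t : ℕ), s ≤ t → (∑ α ∈ A, (S α t - S α s) ^ 2) ^ 2 ≤ ω t - ω s) ∧
  ∀ (α : ℕ) (I : Finset ℕ) (w : ℕ → ℕ) (s t : ℕ), Monotone w → s ≤ t →
    (∀ l ∈ I, s ≤ w (2 * l) ∧ w (2 * l + 1) ≤ t) →
    (∑ l ∈ I, |S α (w (2 * l + 1)) - S α (w (2 * l))|) ^ 4 ≤ I.card * (ω t - ω s)

/-- `S` is adapted (row `α` vanishes up to time `α`) and has a control function with values in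
`[0, v]`. -/
def Adm (S : ℕ → ℕ → ℝ) (v : ℝ) : Prop :=
  (∀ α t, t ≤ α → S α t = 0) ∧ ∃ ω : ℕ → ℝ, Monotone ω ∧ (∀ t, 0 ≤ ω t) ∧ (∀ t, ω t ≤ v) ∧ Ctl S ω

theorem Adm.nonneg {S : ℕ → ℕ → ℝ} {v : ℝ} (h : Adm S v) : 0 ≤ v := by
  obtain ⟨-, ω, -, h1, h2, -⟩ := h
  exact (h1 0).trans (h2 0)

theorem Adm.mono {S : ℕ → ℕ → ℝ} {v v' : ℝ} (h : Adm S v) (hv : v ≤ v') : Adm S v' := by
  obtain ⟨h0, ω, h1, h2, h3, h4⟩ := h
  exact ⟨h0, ω, h1, h2, fun t => (h3 t).trans hv, h4⟩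

theorem Adm.single {S : ℕ → ℕ → ℝ} {v : ℝ} (h : Adm S v) (A : Finset ℕ) {s t : ℕ} (hst : s ≤ t) :
    (∑ α ∈ A, (S α t - S α s) ^ 2) ^ 2 ≤ v := by
  obtain ⟨-, ω, -, h1, h2, h3⟩ := h
  have := h3.1 A s t hst
  have := h1 s
  have := h2 t
  linarith

theorem Adm.sum_sq_le {S : ℕ → ℕ → ℝ} {v : ℝ} (h : Adm S v) (A : Finset ℕ) (t : ℕ) :
    (∑ α ∈ A, (S α t) ^ 2) ^ 2 ≤ v := by
  have h1 := h.single A (Nat.zero_le t)
  have h2 : ∀ α, S α 0 = 0 := fun α => h.1 α 0 (Nat.zero_le α)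
  simpa [h2] using h1

theorem Adm.pow4_le {S : ℕ → ℕ → ℝ} {v : ℝ} (h : Adm S v) (α t : ℕ) : (S α t) ^ 4 ≤ v := by
  have h1 := h.sum_sq_le {α} t
  rw [sum_singleton] at h1
  calc (S α t) ^ 4 = ((S α t) ^ 2) ^ 2 := by ring
    _ ≤ v := h1

theorem Adm.abs_le_one {S : ℕ → ℕ → ℝ} (h : Adm S 1) (α t : ℕ) : |S α t| ≤ 1 := by
  have h1 := h.pow4_le α t
  by_contra hc
  rw [not_le] at hc
  have h2 : 1 < |S α t| ^ 4 := one_lt_pow₀ hc (by norm_num)
  have h3 : |S α t| ^ 4 = (S α t) ^ 4 := by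
    rw [show (4 : ℕ) = 2 * 2 by norm_num, pow_mul, sq_abs, ← pow_mul]
  linarith

theorem adm_zero : Adm (fun _ _ => 0) 0 := by
  refine ⟨fun _ _ _ => rfl, fun _ => 0, monotone_const, fun _ => le_rfl, fun _ => le_rfl, ?_, ?_⟩
  · intro A s t _
    simp
  · intro α I w s t _ _ _
    simp

theorem Adm.smul {S : ℕ → ℕ → ℝ} {v : ℝ} (h : Adm S v) (c : ℝ) :
    Adm (fun α t => c * S α t) (c ^ 4 * v) := by
  obtain ⟨h0, ω, h1, h2, h3, h4, h5⟩ := h
  have hc : 0 ≤ c ^ 4 := by positivity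
  refine ⟨fun α t ht => by simp [h0 α t ht], fun t => c ^ 4 * ω t,
    fun s t hst => mul_le_mul_of_nonneg_left (h1 hst) hc, fun t => mul_nonneg hc (h2 t),
    fun t => mul_le_mul_of_nonneg_left (h3 t) hc, ?_, ?_⟩
  · intro A s t hst
    have := mul_le_mul_of_nonneg_left (h4 A s t hst) hc
    refine le_trans (le_of_eq ?_) (this.trans (le_of_eq (by ring)))
    have e : ∑ α ∈ A, (c * S α t - c * S α s) ^ 2 = c ^ 2 * ∑ α ∈ A, (S α t - S α s) ^ 2 := by
      rw [mul_sum]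
      exact sum_congr rfl fun α _ => by ring
    rw [e]
    ring
  · intro α I w s t hw hst hI
    have := mul_le_mul_of_nonneg_left (h5 α I w s t hw hst hI) hc
    refine le_trans (le_of_eq ?_) (this.trans (le_of_eq (by ring)))
    have e : ∑ l ∈ I, |c * S α (w (2 * l + 1)) - c * S α (w (2 * l))| =
        |c| * ∑ l ∈ I, |S α (w (2 * l + 1)) - S α (w (2 * l))| := by
      rw [mul_sum]
      refine sum_congr rfl fun l _ => ?_
      rw [← mul_sub, abs_mul]
    rw [e, mul_pow]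
    congr 1
    rw [show (4 : ℕ) = 2 * 2 by norm_num, pow_mul, sq_abs, ← pow_mul]

/-- The unit ball of arrays. -/
abbrev Ball : Type := {S : ℕ → ℕ → ℝ // Adm S 1}

/-- The big ambient space of bounded functions on the ball. -/
abbrev Big : Type := lp (fun _ : Ball => ℝ) ⊤

/-- Evaluation functions. -/
noncomputable def delBig (α t : ℕ) : Big :=
  ⟨fun S => S.1 α t, memℓp_infty ⟨1, by
    rintro _ ⟨S, rfl⟩
    have := S.2.abs_le_one α t
    simpa using this⟩⟩

@[simp] theorem delBig_apply (α t : ℕ) (S : Ball) : (delBig α t : Ball → ℝ) S = S.1 α t := rfl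

/-- The span of the evaluation functions. -/
noncomputable def X0 : Submodule ℝ Big :=
  Submodule.span ℝ (Set.range fun p : ℕ × ℕ => delBig p.1 p.2)

/-- The space. -/
noncomputable def XS : Submodule ℝ Big := X0.topologicalClosure

/-- The space as a type. -/
def XT : Type := XS

noncomputable instance : NormedAddCommGroup XT := inferInstanceAs (NormedAddCommGroup XS)
noncomputable instance : NormedSpace ℝ XT := inferInstanceAs (NormedSpace ℝ XS)

noncomputable instance : CompleteSpace XT :=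
  (Submodule.isClosed_topologicalClosure X0).completeSpace_coe

/-- The inclusion in the big space. -/
noncomputable def incl : XT →L[ℝ] Big := XS.subtypeL

theorem norm_incl (x : XT) : ‖incl x‖ = ‖x‖ := rfl

theorem delBig_mem (α t : ℕ) : delBig α t ∈ XS :=
  Submodule.le_topologicalClosure _ (Submodule.subset_span ⟨(α, t), rfl⟩)

/-- The basic vectors. -/
noncomputable def del (α t : ℕ) : XT := ⟨delBig α t, delBig_mem α t⟩

theorem del_eq_zero {α t : ℕ} (h : t ≤ α) : del α t = 0 := by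
  apply Subtype.ext
  apply lp.ext
  funext S
  change S.1 α t = 0
  exact S.2.1 α t h

/-- The coordinate functional. -/
noncomputable def ev (S : Ball) : XT →L[ℝ] ℝ :=
  (lp.evalCLM ℝ (fun _ : Ball => ℝ) ⊤ S).comp incl

theorem ev_apply (S : Ball) (x : XT) : ev S x = (incl x : Ball → ℝ) S := rfl

@[simp] theorem ev_del (S : Ball) (α t : ℕ) : ev S (del α t) = S.1 α t := rfl

theorem norm_ev_le (S : Ball) : ‖ev S‖ ≤ 1 := by
  refine ContinuousLinearMap.opNorm_le_bound _ zero_le_one fun x => ?_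
  rw [one_mul, ev_apply]
  exact lp.norm_apply_le_norm (by simp) (incl x) S

theorem norm_le_of_ev {x : XT} {c : ℝ} (hc : 0 ≤ c) (h : ∀ S : Ball, |ev S x| ≤ c) : ‖x‖ ≤ c := by
  rw [← norm_incl]
  exact lp.norm_le_of_forall_le hc fun S => h S

/-- A closed subspace containing all basic vectors is everything. -/
theorem mem_of_closed (p : Submodule ℝ XT) (hp : IsClosed (p : Set XT))
    (h : ∀ α t, del α t ∈ p) (x : XT) : x ∈ p := by
  have h1 : X0 ≤ p.map XS.subtype := by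
    refine Submodule.span_le.2 ?_
    rintro _ ⟨q, rfl⟩
    exact ⟨del q.1 q.2, h q.1 q.2, rfl⟩
  have h2 : IsClosed ((p.map XS.subtype : Submodule ℝ Big) : Set Big) := by
    have hce : Topology.IsClosedEmbedding (Subtype.val : XT → Big) :=
      (Submodule.isClosed_topologicalClosure X0).isClosedEmbedding_subtypeVal
    exact hce.isClosedMap _ hp
  have h3 : XS ≤ p.map XS.subtype := Submodule.topologicalClosure_minimal _ h1 h2
  obtain ⟨y, hy, hyx⟩ := h3 x.2
  have : y = x := Subtype.ext hyx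
  exact this ▸ hy

theorem clm_ext {F : Type*} [NormedAddCommGroup F] [NormedSpace ℝ F] {f g : XT →L[ℝ] F}
    (h : ∀ α t, f (del α t) = g (del α t)) : f = g := by
  ext x
  have : x ∈ LinearMap.ker (f - g).toLinearMap := by
    refine mem_of_closed _ ?_ ?_ x
    · exact (f - g).isClosed_ker
    · intro α t
      simp [h α t]
  have h2 : (f - g) x = 0 := this
  rw [sub_apply, sub_eq_zero] at h2
  exact h2

/-- The dual. -/
abbrev XD : Type := StrongDual ℝ XT

/-- The array of a functional. -/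
noncomputable def sy (ψ : XD) (α t : ℕ) : ℝ := ψ (del α t)

theorem sy_ext {ψ ψ' : XD} (h : ∀ α t, sy ψ α t = sy ψ' α t) : ψ = ψ' := clm_ext h

theorem exists_mk {S : ℕ → ℕ → ℝ} {v : ℝ} (hv0 : 0 ≤ v) (h : Adm S (v ^ 4)) :
    ∃ ψ : XD, (∀ α t, sy ψ α t = S α t) ∧ ‖ψ‖ ≤ v := by
  rcases eq_or_lt_of_le hv0 with hv | hv
  · refine ⟨0, fun α t => ?_, by simp [hv0]⟩
    have h1 := h.pow4_le α t
    rw [← hv] at h1
    have h2 : S α t = 0 := by
      by_contra hne
      have h3 : 0 < (S α t) ^ 2 := by positivity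
      have h4 : 0 < ((S α t) ^ 2) ^ 2 := by positivity
      have h5 : ((S α t) ^ 2) ^ 2 = (S α t) ^ 4 := by ring
      norm_num at h1
      linarith
    rw [h2]; rfl
  · have hb : Adm (fun α t => v⁻¹ * S α t) 1 := by
      have := h.smul v⁻¹
      have e : v⁻¹ ^ 4 * v ^ 4 = 1 := by
        rw [← mul_pow, inv_mul_cancel₀ hv.ne', one_pow]
      rwa [e] at this
    refine ⟨v • ev ⟨_, hb⟩, fun α t => ?_, ?_⟩
    · change v * (v⁻¹ * S α t) = S α t
      rw [← mul_assoc, mul_inv_cancel₀ hv.ne', one_mul]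
    · rw [norm_smul, Real.norm_of_nonneg hv.le]
      have := mul_le_mul_of_nonneg_left (norm_ev_le ⟨_, hb⟩) hv.le
      simpa using this

theorem norm_le_of_adm {ψ : XD} {v : ℝ} (hv : 0 ≤ v) (h : Adm (sy ψ) (v ^ 4)) : ‖ψ‖ ≤ v := by
  obtain ⟨ψ', h1, h2⟩ := exists_mk hv h
  have : ψ = ψ' := sy_ext fun α t => (h1 α t).symm
  rw [this]
  exact h2

theorem norm_pow_le_of_adm {ψ : XD} {v : ℝ} (h : Adm (sy ψ) v) : ‖ψ‖ ^ 4 ≤ v := by
  have hv := h.nonneg
  have e : (Real.sqrt (Real.sqrt v)) ^ 4 = v := by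
    rw [show (4 : ℕ) = 2 * 2 by norm_num, pow_mul, Real.sq_sqrt (Real.sqrt_nonneg _),
      Real.sq_sqrt hv]
  have h1 : ‖ψ‖ ≤ Real.sqrt (Real.sqrt v) :=
    norm_le_of_adm (Real.sqrt_nonneg _) (by rw [e]; exact h)
  calc ‖ψ‖ ^ 4 ≤ (Real.sqrt (Real.sqrt v)) ^ 4 := pow_le_pow_left₀ (norm_nonneg _) h1 4
    _ = v := e

end Pool.Agent.H220.IC
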