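import Pool.Agent.H220.IC.A

/-! Step functionals, stopping operators, and the superadditivity of the fourth power of the dual
norm. -/

namespace Pool.Agent.H220.IC

open Finset

theorem tele {h : ℕ → ℝ} (hm : Monotone h) (n : ℕ) :
    ∑ b ∈ range n, (h (2 * b + 1) - h (2 * b)) ≤ h (2 * n) - h 0 := by
  induction n with
  | zero => simp
  | succ n ih =>
    rw [sum_range_succ]
    have h1 : h (2 * n + 1) ≤ h (2 * (n + 1)) := hm (by omega)
    linarith

theorem tele_fin {h : ℕ → ℝ} (hm : Monotone h) (I : Finset ℕ) (w : ℕ → ℕ) (s t : ℕ)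
    (hw : Monotone w) (hst : s ≤ t) (hI : ∀ l ∈ I, s ≤ w (2 * l) ∧ w (2 * l + 1) ≤ t) :
    ∑ l ∈ I, (h (w (2 * l + 1)) - h (w (2 * l))) ≤ h t - h s := by
  set g : ℕ → ℝ := fun l => h (max s (min (w l) t)) with hg
  have hgm : Monotone g := fun i j hij =>
    hm (max_le_max_left _ (min_le_min_right _ (hw hij)))
  obtain ⟨n, hn⟩ : ∃ n, I ⊆ range n := by
    refine ⟨I.sup id + 1, fun l hl => ?_⟩
    rw [mem_range]
    have : id l ≤ I.sup id := le_sup hl
    simp only [id] at this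
    omega
  have h1 : ∑ l ∈ I, (h (w (2 * l + 1)) - h (w (2 * l))) =
      ∑ l ∈ I, (g (2 * l + 1) - g (2 * l)) := by
    refine sum_congr rfl fun l hl => ?_
    obtain ⟨h2, h3⟩ := hI l hl
    have h4 : w (2 * l) ≤ w (2 * l + 1) := hw (by omega)
    simp only [hg]
    rw [show max s (min (w (2 * l + 1)) t) = w (2 * l + 1) by omega,
      show max s (min (w (2 * l)) t) = w (2 * l) by omega]
  rw [h1]
  have h2 : ∑ l ∈ I, (g (2 * l + 1) - g (2 * l)) ≤ ∑ l ∈ range n, (g (2 * l + 1) - g (2 * l)) :=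
    sum_le_sum_of_subset_of_nonneg hn fun l _ _ => by
      have := hgm (show 2 * l ≤ 2 * l + 1 by omega)
      linarith
  have h3 := tele hgm n
  have h4 : g (2 * n) ≤ h t := hm (by omega)
  have h5 : h s ≤ g 0 := hm (by omega)
  linarith

theorem adm_step (b : ℕ → ℝ) (τ : ℕ → ℕ) (hτ : ∀ β, β < τ β) (v : ℝ)
    (hb : ∀ A : Finset ℕ, ∑ β ∈ A, b β ^ 2 ≤ v) :
    Adm (fun β s => if τ β ≤ s then b β else 0) (v ^ 2) := by
  set E : ℕ → ℝ := fun t => ∑ β ∈ range t, if τ β ≤ t then b β ^ 2 else 0 with hE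
  have hE0 : ∀ t, 0 ≤ E t := fun t => sum_nonneg fun β _ => by split_ifs <;> positivity
  have hEv : ∀ t, E t ≤ v := by
    intro t
    refine le_trans (sum_le_sum fun β _ => ?_) (hb (range t))
    split_ifs
    · exact le_rfl
    · positivity
  -- increments
  have hinc : ∀ (A : Finset ℕ) (s t : ℕ), s ≤ t →
      ∑ α ∈ A, (if s < τ α ∧ τ α ≤ t then b α ^ 2 else 0) ≤ E t - E s := by
    intro A s t hst
    have h1 : E s = ∑ β ∈ range t, if τ β ≤ s then b β ^ 2 else 0 := by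
      simp only [hE]
      refine sum_subset (range_mono hst) fun β _ hβ => ?_
      rw [mem_range, not_lt] at hβ
      have := hτ β
      rw [if_neg (by omega)]
    rw [h1]
    simp only [hE]
    rw [← sum_sub_distrib]
    have h2 : ∀ β ∈ range t, (if τ β ≤ t then b β ^ 2 else 0) - (if τ β ≤ s then b β ^ 2 else 0) =
        if s < τ β ∧ τ β ≤ t then b β ^ 2 else 0 := by
      intro β _
      by_cases h3 : τ β ≤ s
      · rw [if_pos (by omega), if_pos h3, if_neg (by omega), sub_self]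
      · by_cases h4 : τ β ≤ t
        · rw [if_pos h4, if_neg h3, if_pos ⟨by omega, h4⟩, sub_zero]
        · rw [if_neg h4, if_neg h3, if_neg (by omega), sub_zero]
    rw [sum_congr rfl h2]
    have h3 : ∑ α ∈ A, (if s < τ α ∧ τ α ≤ t then b α ^ 2 else 0) ≤
        ∑ α ∈ A ∪ range t, (if s < τ α ∧ τ α ≤ t then b α ^ 2 else 0) :=
      sum_le_sum_of_subset_of_nonneg subset_union_left fun α _ _ => by
        split_ifs <;> positivity
    refine h3.trans (le_of_eq ?_)
    symm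
    refine sum_subset subset_union_right fun α _ hα => ?_
    rw [mem_range, not_lt] at hα
    have := hτ α
    rw [if_neg (by omega)]
  have hEm : Monotone E := by
    intro s t hst
    have := hinc ∅ s t hst
    rw [sum_empty] at this
    linarith
  have hsq : ∀ s t, s ≤ t → (E t - E s) ^ 2 ≤ E t ^ 2 - E s ^ 2 := by
    intro s t hst
    have h1 := hEm hst
    have h2 := hE0 s
    nlinarith
  refine ⟨fun β s hs => ?_, fun t => E t ^ 2, fun s t hst => pow_le_pow_left₀ (hE0 s) (hEm hst) 2,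
    fun t => by positivity, fun t => pow_le_pow_left₀ (hE0 t) (hEv t) 2, ?_, ?_⟩
  · have h0 := hτ β
    exact if_neg (by omega)
  · intro A s t hst
    refine le_trans ?_ (hsq s t hst)
    refine pow_le_pow_left₀ (sum_nonneg fun _ _ => sq_nonneg _) (le_trans (le_of_eq ?_) (hinc A s t hst)) 2
    refine sum_congr rfl fun α _ => ?_
    beta_reduce
    by_cases h3 : τ α ≤ s
    · rw [if_pos (show τ α ≤ t by omega), if_pos h3, if_neg (by omega)]; ring
    · by_cases h4 : τ α ≤ t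
      · rw [if_pos h4, if_neg h3, if_pos ⟨by omega, h4⟩]; ring
      · rw [if_neg h4, if_neg h3, if_neg (by omega)]; ring
  · intro α I w s t hw hst hI
    set h : ℕ → ℝ := fun r => if τ α ≤ r then 1 else 0 with hh
    have hm : Monotone h := by
      intro i j hij
      simp only [hh]
      split_ifs with h1 h2
      · exact le_rfl
      · omega
      · exact zero_le_one
      · exact le_rfl
    have h1 : ∀ l ∈ I, |(if τ α ≤ w (2 * l + 1) then b α else 0) -
        (if τ α ≤ w (2 * l) then b α else 0)| = |b α| * (h (w (2 * l + 1)) - h (w (2 * l))) := by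
      intro l _
      have h2 : w (2 * l) ≤ w (2 * l + 1) := hw (by omega)
      simp only [hh]
      split_ifs with h3 h4
      · simp
      · simp
      · omega
      · simp
    rw [sum_congr rfl h1, ← mul_sum]
    have h2 := tele_fin hm I w s t hw hst hI
    have h0 : 0 ≤ ∑ l ∈ I, (h (w (2 * l + 1)) - h (w (2 * l))) := sum_nonneg fun l _ => by
      have := hm (hw (show 2 * l ≤ 2 * l + 1 by omega))
      linarith
    rcases I.eq_empty_or_nonempty with rfl | hne
    · simp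
    have hc : (1 : ℝ) ≤ I.card := by
      exact_mod_cast Finset.card_pos.2 hne
    have h3 : (b α) ^ 2 * (h t - h s) ≤ E t - E s := by
      have := hinc {α} s t hst
      rw [sum_singleton] at this
      refine le_trans (le_of_eq ?_) this
      simp only [hh]
      by_cases h3 : τ α ≤ s
      · rw [if_pos (show τ α ≤ t by omega), if_pos h3, if_neg (by omega)]; ring
      · by_cases h4 : τ α ≤ t
        · rw [if_pos h4, if_neg h3, if_pos ⟨by omega, h4⟩]; ring
        · rw [if_neg h4, if_neg h3, if_neg (by omega)]; ring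
    have h4 : h t - h s = 0 ∨ h t - h s = 1 := by
      simp only [hh]
      split_ifs <;> norm_num
      omega
    have h5 : (|b α| * ∑ l ∈ I, (h (w (2 * l + 1)) - h (w (2 * l)))) ^ 4 ≤
        (|b α| * (h t - h s)) ^ 4 :=
      pow_le_pow_left₀ (mul_nonneg (abs_nonneg _) h0) (mul_le_mul_of_nonneg_left h2 (abs_nonneg _)) 4
    have h6 : (|b α| * (h t - h s)) ^ 4 = ((b α) ^ 2 * (h t - h s)) ^ 2 := by
      rcases h4 with h4 | h4
      · rw [h4]; ring
      · rw [h4, mul_one, mul_one, show (4 : ℕ) = 2 * 2 by norm_num, pow_mul, sq_abs]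
    have h7 : ((b α) ^ 2 * (h t - h s)) ^ 2 ≤ (E t - E s) ^ 2 := by
      refine pow_le_pow_left₀ (mul_nonneg (sq_nonneg _) ?_) h3 2
      have := hm hst
      linarith
    have h8 := hsq s t hst
    have h9 : 0 ≤ E t ^ 2 - E s ^ 2 := le_trans (sq_nonneg _) h8
    calc _ ≤ E t ^ 2 - E s ^ 2 := h5.trans (h6.le.trans (h7.trans h8))
      _ = 1 * (E t ^ 2 - E s ^ 2) := (one_mul _).symm
      _ ≤ I.card * (E t ^ 2 - E s ^ 2) := mul_le_mul_of_nonneg_right hc h9

theorem exists_J (α t : ℕ) : ∃ ψ : XD,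
    ∀ β s, sy ψ β s = if max t (β + 1) ≤ s then (if β = α then 1 else 0) else 0 := by
  have h := adm_step (fun β => if β = α then 1 else 0)
    (fun β => max t (β + 1)) (fun β => by
      have := le_max_right t (β + 1)
      show β < max t (β + 1)
      omega) 1 (fun A => by
        simp only [ite_pow, one_pow, ne_eq, OfNat.ofNat_ne_zero, not_false_eq_true, zero_pow]
        rw [Finset.sum_ite_eq']
        split_ifs <;> norm_num)
  obtain ⟨ψ, h1, -⟩ := exists_mk (v := 1) zero_le_one (by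
    rw [one_pow] at h
    rw [one_pow]
    exact h)
  exact ⟨ψ, h1⟩

/-- The step functional at row `α` and time `t`. -/
noncomputable def J (α t : ℕ) : XD := (exists_J α t).choose

theorem sy_J (α t β s : ℕ) :
    sy (J α t) β s = if max t (β + 1) ≤ s then (if β = α then 1 else 0) else 0 :=
  (exists_J α t).choose_spec β s

/-- The stopping operator. -/
noncomputable def P (T : ℕ) : XT →L[ℝ] XT :=
  ∑ t ∈ range T, ∑ α ∈ range T, (J α (t + 1)).smulRight (del α (t + 1) - del α t)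

theorem P_del (T β s : ℕ) : P T (del β s) = del β (min s T) := by
  have h1 : P T (del β s) = ∑ t ∈ range T, ∑ α ∈ range T,
      (sy (J α (t + 1)) β s) • (del α (t + 1) - del α t) := by
    unfold P
    simp only [_root_.sum_apply, ContinuousLinearMap.smulRight_apply]
    rfl
  rw [h1]
  rcases le_or_gt s β with hs | hs
  · rw [del_eq_zero (show min s T ≤ β by omega)]
    refine sum_eq_zero fun t _ => sum_eq_zero fun α _ => ?_
    rw [sy_J, if_neg (by have := le_max_right (t + 1) (β + 1); omega), zero_smul]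
  · have h2 : ∀ t ∈ range T, ∑ α ∈ range T, (sy (J α (t + 1)) β s) • (del α (t + 1) - del α t) =
        del β (min (t + 1) s) - del β (min t s) := by
      intro t ht
      rw [mem_range] at ht
      have h3 : ∀ α ∈ range T, (sy (J α (t + 1)) β s) • (del α (t + 1) - del α t) =
          if β = α then (if t + 1 ≤ s then (del β (t + 1) - del β t) else 0) else 0 := by
        intro α _
        rw [sy_J]
        by_cases hβ : β = α
        · subst hβ
          by_cases hts : t + 1 ≤ s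
          · rw [if_pos (by omega)]
            simp [hts]
          · rw [if_neg (by omega)]
            simp [hts]
        · simp [hβ]
      rw [sum_congr rfl h3, sum_ite_eq]
      by_cases hβT : β ∈ range T
      · rw [if_pos hβT]
        by_cases hts : t + 1 ≤ s
        · rw [if_pos hts, min_eq_left hts, min_eq_left (by omega)]
        · rw [if_neg hts, min_eq_right (by omega), min_eq_right (by omega), sub_self]
      · rw [if_neg hβT]
        rw [mem_range, not_lt] at hβT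
        rw [del_eq_zero (show min (t + 1) s ≤ β by omega),
          del_eq_zero (show min t s ≤ β by omega), sub_self]
    rw [sum_congr rfl h2, sum_range_sub (fun t => del β (min t s)) T]
    rw [del_eq_zero (show min 0 s ≤ β by omega), sub_zero, min_comm]

theorem sy_comp_P (ψ : XD) (T α t : ℕ) : sy (ψ.comp (P T)) α t = sy ψ α (min t T) := by
  change ψ (P T (del α t)) = _
  rw [P_del]
  rfl

theorem sy_sub (ψ ψ' : XD) (α t : ℕ) : sy (ψ - ψ') α t = sy ψ α t - sy ψ' α t := rfl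
theorem sy_add (ψ ψ' : XD) (α t : ℕ) : sy (ψ + ψ') α t = sy ψ α t + sy ψ' α t := rfl
theorem sy_smul (c : ℝ) (ψ : XD) (α t : ℕ) : sy (c • ψ) α t = c * sy ψ α t := rfl

theorem P_P_of_le {s t : ℕ} (h : s ≤ t) (x : XT) : P t (P s x) = P s x := by
  have : (P t).comp (P s) = P s := by
    refine clm_ext fun α r => ?_
    change P t (P s (del α r)) = P s (del α r)
    rw [P_del, P_del, min_assoc, min_eq_left h]
  exact congrArg (fun f : XT →L[ℝ] XT => f x) this

theorem P_P (T : ℕ) (x : XT) : P T (P T x) = P T x := P_P_of_le le_rfl x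

/-! ### Stopping arrays -/

theorem ctl_min {S : ℕ → ℕ → ℝ} {ω : ℕ → ℝ} (h : Ctl S ω) (T : ℕ) :
    Ctl (fun α t => S α (min t T)) (fun t => ω (min t T)) := by
  refine ⟨fun A s t hst => h.1 A _ _ (min_le_min_right _ hst), fun α I w s t hw hst hI => ?_⟩
  exact h.2 α I (fun l => min (w l) T) _ _ (fun i j hij => min_le_min_right _ (hw hij))
    (min_le_min_right _ hst)
    fun l hl => ⟨min_le_min_right _ (hI l hl).1, min_le_min_right _ (hI l hl).2⟩

theorem ctl_max {S : ℕ → ℕ → ℝ} {ω : ℕ → ℝ} (h : Ctl S ω) (T : ℕ) (c : ℝ) :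
    Ctl (fun α t => S α (max t T) - S α T) (fun t => ω (max t T) - c) := by
  refine ⟨fun A s t hst => ?_, fun α I w s t hw hst hI => ?_⟩
  · have := h.1 A _ _ (max_le_max_right T hst)
    simp only [sub_sub_sub_cancel_right]
    exact this
  · have := h.2 α I (fun l => max (w l) T) _ _ (fun i j hij => max_le_max_right _ (hw hij))
      (max_le_max_right T hst)
      fun l hl => ⟨max_le_max_right _ (hI l hl).1, max_le_max_right _ (hI l hl).2⟩
    simp only [sub_sub_sub_cancel_right]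
    exact this

theorem stop_split (ψ : XD) (ω : ℕ → ℝ) (v : ℝ) (hm : Monotone ω) (h0 : ∀ t, 0 ≤ ω t)
    (hv : ∀ t, ω t ≤ v) (hc : Ctl (sy ψ) ω) (T : ℕ) :
    ‖ψ.comp (P T)‖ ^ 4 ≤ ω T ∧ ‖ψ - ψ.comp (P T)‖ ^ 4 ≤ v - ω T := by
  have had : ∀ (ψ : XD) α t, t ≤ α → sy ψ α t = 0 := fun ψ α t ht => by
    simp [sy, del_eq_zero ht]
  constructor
  · refine norm_pow_le_of_adm ⟨had _, fun t => ω (min t T), fun s t hst => hm
      (min_le_min_right _ hst), fun t => h0 _, fun t => hm (min_le_right _ _), ?_⟩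
    have e : sy (ψ.comp (P T)) = fun α t => sy ψ α (min t T) := by
      funext α t
      exact sy_comp_P ψ T α t
    rw [e]
    exact ctl_min hc T
  · refine norm_pow_le_of_adm ⟨had _, fun t => ω (max t T) - ω T, fun s t hst =>
      sub_le_sub_right (hm (max_le_max_right _ hst)) _,
      fun t => sub_nonneg.2 (hm (le_max_right _ _)), fun t => sub_le_sub_right (hv _) _, ?_⟩
    have e : sy (ψ - ψ.comp (P T)) = fun α t => sy ψ α (max t T) - sy ψ α T := by
      funext α s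
      rw [sy_sub, sy_comp_P]
      rcases le_total s T with hs | hs
      · rw [min_eq_left hs, max_eq_right hs]; ring
      · rw [min_eq_right hs, max_eq_left hs]
    rw [e]
    exact ctl_max hc T _

theorem sy_ev (S : Ball) : sy (ev S) = S.1 := rfl

/-- The two parts of an array of the ball. -/
theorem ev_split (S : Ball) (T : ℕ) :
    ‖(ev S).comp (P T)‖ ^ 4 + ‖ev S - (ev S).comp (P T)‖ ^ 4 ≤ 1 := by
  obtain ⟨ω, h1, h2, h3, h4⟩ := S.2.2
  have h := stop_split (ev S) ω 1 h1 h2 h3 (by rw [sy_ev]; exact h4) T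
  linarith [h.1, h.2]

theorem norm_P_le (T : ℕ) (x : XT) : ‖P T x‖ ≤ ‖x‖ := by
  refine norm_le_of_ev (norm_nonneg _) fun S => ?_
  have h1 := ev_split S T
  have h2 : ‖(ev S).comp (P T)‖ ≤ 1 := by
    have h3 : ‖(ev S).comp (P T)‖ ^ 4 ≤ 1 ^ 4 := by
      have : 0 ≤ ‖ev S - (ev S).comp (P T)‖ ^ 4 := by positivity
      linarith
    exact le_of_pow_le_pow_left₀ (by norm_num) zero_le_one h3
  change ‖((ev S).comp (P T)) x‖ ≤ _
  calc _ ≤ ‖(ev S).comp (P T)‖ * ‖x‖ := ((ev S).comp (P T)).le_opNorm x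
    _ ≤ 1 * ‖x‖ := mul_le_mul_of_nonneg_right h2 (norm_nonneg _)
    _ = ‖x‖ := one_mul _

theorem holder2 (m n a b : ℝ) :
    (m * a ^ 3 + n * b ^ 3) ^ 4 ≤ (m ^ 4 + n ^ 4) * (a ^ 4 + b ^ 4) ^ 3 := by
  have h1 : (m * a ^ 3 + n * b ^ 3) ^ 2 ≤ (m ^ 2 * a ^ 2 + n ^ 2 * b ^ 2) * (a ^ 4 + b ^ 4) := by
    nlinarith [sq_nonneg (m * a * b ^ 2 - n * b * a ^ 2)]
  have h2 : (m ^ 2 * a ^ 2 + n ^ 2 * b ^ 2) ^ 2 ≤ (m ^ 4 + n ^ 4) * (a ^ 4 + b ^ 4) := by
    nlinarith [sq_nonneg (m ^ 2 * b ^ 2 - n ^ 2 * a ^ 2)]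
  have h3 : 0 ≤ a ^ 4 + b ^ 4 := by positivity
  calc (m * a ^ 3 + n * b ^ 3) ^ 4 = ((m * a ^ 3 + n * b ^ 3) ^ 2) ^ 2 := by ring
    _ ≤ ((m ^ 2 * a ^ 2 + n ^ 2 * b ^ 2) * (a ^ 4 + b ^ 4)) ^ 2 :=
        pow_le_pow_left₀ (sq_nonneg _) h1 2
    _ = (m ^ 2 * a ^ 2 + n ^ 2 * b ^ 2) ^ 2 * (a ^ 4 + b ^ 4) ^ 2 := by ring
    _ ≤ (m ^ 4 + n ^ 4) * (a ^ 4 + b ^ 4) * (a ^ 4 + b ^ 4) ^ 2 :=
        mul_le_mul_of_nonneg_right h2 (by positivity)
    _ = _ := by ring

theorem exists_root (E : ℝ) (hE : 0 ≤ E) : ∃ e : ℝ, 0 ≤ e ∧ e ^ 4 = E := by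
  refine ⟨Real.sqrt (Real.sqrt E), Real.sqrt_nonneg _, ?_⟩
  rw [show (4 : ℕ) = 2 * 2 by norm_num, pow_mul, Real.sq_sqrt (Real.sqrt_nonneg _),
    Real.sq_sqrt hE]

theorem pow4_abs (x : ℝ) : |x| ^ 4 = x ^ 4 := by
  rw [show (4 : ℕ) = 2 * 2 by norm_num, pow_mul, sq_abs, ← pow_mul]

theorem norm_pow_le_of_ev {x : XT} {c : ℝ} (hc : 0 ≤ c) (h : ∀ S : Ball, (ev S x) ^ 4 ≤ c) :
    ‖x‖ ^ 4 ≤ c := by
  obtain ⟨e, he, hec⟩ := exists_root c hc
  have h1 : ‖x‖ ≤ e := norm_le_of_ev he fun S => by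
    refine le_of_pow_le_pow_left₀ (n := 4) (by norm_num) he ?_
    rw [pow4_abs, hec]
    exact h S
  calc ‖x‖ ^ 4 ≤ e ^ 4 := pow_le_pow_left₀ (norm_nonneg _) h1 4
    _ = c := hec

/-- The upper `4/3` estimate. -/
theorem split_pow (T : ℕ) {x y : XT} (hx : P T x = x) (hy : P T y = 0) {a b : ℝ} (ha : 0 ≤ a)
    (hb : 0 ≤ b) (hxa : ‖x‖ ≤ a ^ 3) (hyb : ‖y‖ ≤ b ^ 3) : ‖x + y‖ ^ 4 ≤ (a ^ 4 + b ^ 4) ^ 3 := by
  refine norm_pow_le_of_ev (by positivity) fun S => ?_
  have h1 : ev S (x + y) = ((ev S).comp (P T)) x + (ev S - (ev S).comp (P T)) y := by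
    change ev S (x + y) = ev S (P T x) + (ev S y - ev S (P T y))
    rw [hx, hy, map_zero, sub_zero, map_add]
  set m := ‖(ev S).comp (P T)‖
  set n := ‖ev S - (ev S).comp (P T)‖
  have h2 : ‖((ev S).comp (P T)) x‖ ≤ m * a ^ 3 :=
    (((ev S).comp (P T)).le_opNorm x).trans (mul_le_mul_of_nonneg_left hxa (norm_nonneg _))
  have h3 : ‖(ev S - (ev S).comp (P T)) y‖ ≤ n * b ^ 3 :=
    ((ev S - (ev S).comp (P T)).le_opNorm y).trans (mul_le_mul_of_nonneg_left hyb (norm_nonneg _))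
  have h4 : m ^ 4 + n ^ 4 ≤ 1 := ev_split S T
  have h5 : |ev S (x + y)| ≤ m * a ^ 3 + n * b ^ 3 := by
    rw [h1]
    exact (norm_add_le _ _).trans (add_le_add h2 h3)
  calc (ev S (x + y)) ^ 4 = |ev S (x + y)| ^ 4 := (pow4_abs _).symm
    _ ≤ (m * a ^ 3 + n * b ^ 3) ^ 4 := pow_le_pow_left₀ (abs_nonneg _) h5 4
    _ ≤ (m ^ 4 + n ^ 4) * (a ^ 4 + b ^ 4) ^ 3 := holder2 m n a b
    _ ≤ 1 * (a ^ 4 + b ^ 4) ^ 3 := mul_le_mul_of_nonneg_right h4 (by positivity)
    _ = _ := one_mul _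

theorem norm_comp_P_le (ψ : XD) (T : ℕ) : ‖ψ.comp (P T)‖ ≤ ‖ψ‖ := by
  refine ContinuousLinearMap.opNorm_le_bound _ (norm_nonneg _) fun x => ?_
  calc ‖ψ (P T x)‖ ≤ ‖ψ‖ * ‖P T x‖ := ψ.le_opNorm _
    _ ≤ ‖ψ‖ * ‖x‖ := mul_le_mul_of_nonneg_left (norm_P_le T x) (norm_nonneg _)

/-- Superadditivity of the fourth power of the dual norm. -/
theorem sup_pow (ψ : XD) {s t : ℕ} (hst : s ≤ t) {y : XT} (hty : P t y = y) (hsy : P s y = 0) :
    (ψ y) ^ 4 ≤ ‖y‖ ^ 4 * (‖ψ.comp (P t)‖ ^ 4 - ‖ψ.comp (P s)‖ ^ 4) := by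
  set D := ‖ψ.comp (P t)‖ with hD
  set a := ‖ψ.comp (P s)‖ with ha
  have hD0 : 0 ≤ D := norm_nonneg _
  have ha0 : 0 ≤ a := norm_nonneg _
  -- normalised vector
  obtain ⟨y1, hy1, hy2, hy3, hy4, hy5⟩ : ∃ y1 : XT, ‖y1‖ ≤ 1 ∧ P t y1 = y1 ∧ P s y1 = 0 ∧
      0 ≤ ψ y1 ∧ (ψ y) ^ 4 ≤ ‖y‖ ^ 4 * (ψ y1) ^ 4 := by
    rcases eq_or_ne ‖y‖ 0 with h0 | h0
    · refine ⟨0, by simp, by simp, by simp, by simp, ?_⟩
      have : y = 0 := norm_eq_zero.1 h0
      rw [this]
      simp
    · have hpos : 0 < ‖y‖ := lt_of_le_of_ne (norm_nonneg _) (Ne.symm h0)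
      rcases le_total 0 (ψ y) with h1 | h1
      · refine ⟨‖y‖⁻¹ • y, ?_, ?_, ?_, ?_, ?_⟩
        · rw [norm_smul, norm_inv, norm_norm, inv_mul_cancel₀ h0]
        · rw [map_smul, hty]
        · rw [map_smul, hsy, smul_zero]
        · rw [map_smul, smul_eq_mul]; positivity
        · rw [map_smul, smul_eq_mul, mul_pow, ← mul_assoc, ← mul_pow, mul_inv_cancel₀ h0, one_pow,
            one_mul]
      · refine ⟨-(‖y‖⁻¹ • y), ?_, ?_, ?_, ?_, ?_⟩
        · rw [norm_neg, norm_smul, norm_inv, norm_norm, inv_mul_cancel₀ h0]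
        · rw [map_neg, map_smul, hty]
        · rw [map_neg, map_smul, hsy, smul_zero, neg_zero]
        · rw [map_neg, map_smul, smul_eq_mul]
          have : 0 ≤ ‖y‖⁻¹ := by positivity
          nlinarith
        · rw [map_neg, map_smul, smul_eq_mul]
          have : (-(‖y‖⁻¹ * ψ y)) ^ 4 = ‖y‖⁻¹ ^ 4 * (ψ y) ^ 4 := by ring
          rw [this, ← mul_assoc, ← mul_pow, mul_inv_cancel₀ h0, one_pow, one_mul]
  set b := ψ y1 with hb
  obtain ⟨e, he, hee⟩ := exists_root (a ^ 4 + b ^ 4) (by positivity)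
  -- the key inequality
  have key : ∀ x : XT, ‖x‖ ≤ 1 → a ^ 3 * (ψ.comp (P s)) x + b ^ 4 ≤ D * e ^ 3 := by
    intro x hx
    set z := a ^ 3 • P s x + b ^ 3 • y1 with hz
    have hz1 : ‖z‖ ^ 4 ≤ (a ^ 4 + b ^ 4) ^ 3 := by
      refine split_pow s ?_ ?_ ha0 hy4 ?_ ?_
      · rw [map_smul, P_P]
      · rw [map_smul, hy3, smul_zero]
      · rw [norm_smul, Real.norm_of_nonneg (by positivity)]
        have := (norm_P_le s x).trans hx
        calc a ^ 3 * ‖P s x‖ ≤ a ^ 3 * 1 := mul_le_mul_of_nonneg_left this (by positivity)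
          _ = a ^ 3 := mul_one _
      · rw [norm_smul, Real.norm_of_nonneg (by positivity)]
        calc b ^ 3 * ‖y1‖ ≤ b ^ 3 * 1 := mul_le_mul_of_nonneg_left hy1 (by positivity)
          _ = b ^ 3 := mul_one _
    have hz2 : ‖z‖ ≤ e ^ 3 := by
      refine le_of_pow_le_pow_left₀ (n := 4) (by norm_num) (by positivity) ?_
      rw [← pow_mul, mul_comm 3 4, pow_mul, hee]
      exact hz1
    have hz3 : P t z = z := by
      rw [hz, map_add, map_smul, map_smul, P_P_of_le hst, hy2]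
    have hz4 : ψ z = a ^ 3 * (ψ.comp (P s)) x + b ^ 4 := by
      rw [hz, map_add, map_smul, map_smul, smul_eq_mul, smul_eq_mul]
      change a ^ 3 * ψ (P s x) + b ^ 3 * b = a ^ 3 * ψ (P s x) + b ^ 4
      ring
    rw [← hz4]
    calc ψ z = (ψ.comp (P t)) z := by
          change ψ z = ψ (P t z)
          rw [hz3]
      _ ≤ ‖(ψ.comp (P t)) z‖ := le_abs_self _
      _ ≤ D * ‖z‖ := (ψ.comp (P t)).le_opNorm z
      _ ≤ D * e ^ 3 := mul_le_mul_of_nonneg_left hz2 hD0
  -- the supremum over `x`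
  have key2 : a ^ 3 * a + b ^ 4 ≤ D * e ^ 3 := by
    by_contra hc
    rw [not_le] at hc
    have ha3 : 0 < a ^ 3 := by
      rcases eq_or_lt_of_le ha0 with h | h
      · have := key 0 (by simp)
        rw [← h] at hc this
        simp at hc this
        linarith
      · positivity
    have h1 : (D * e ^ 3 - b ^ 4) / a ^ 3 < a := by
      rw [div_lt_iff₀ ha3]
      linarith
    obtain ⟨x, hx1, hx2⟩ := (ψ.comp (P s)).exists_lt_apply_of_lt_opNorm h1
    rw [div_lt_iff₀ ha3] at hx2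
    rcases le_total 0 ((ψ.comp (P s)) x) with h2 | h2
    · rw [Real.norm_of_nonneg h2] at hx2
      have := key x hx1.le
      linarith
    · rw [Real.norm_of_nonpos h2] at hx2
      have := key (-x) (by rw [norm_neg]; exact hx1.le)
      rw [map_neg] at this
      linarith
  have key3 : a ^ 4 + b ^ 4 ≤ D ^ 4 := by
    have h1 : e ^ 3 * e ≤ D * e ^ 3 := by
      have : e ^ 3 * e = a ^ 3 * a + b ^ 4 := by
        have e1 : e ^ 3 * e = e ^ 4 := by ring
        rw [e1, hee]; ring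
      rw [this]; exact key2
    have h2 : e ≤ D := by
      rcases eq_or_lt_of_le he with h | h
      · rw [← h]; exact hD0
      · have h3 : 0 < e ^ 3 := by positivity
        have h4 : e * e ^ 3 ≤ D * e ^ 3 := by linarith
        exact le_of_mul_le_mul_right h4 h3
    rw [← hee]
    exact pow_le_pow_left₀ he h2 4
  calc (ψ y) ^ 4 ≤ ‖y‖ ^ 4 * b ^ 4 := hy5
    _ ≤ ‖y‖ ^ 4 * (D ^ 4 - a ^ 4) := mul_le_mul_of_nonneg_left (by linarith) (by positivity)

theorem mono_comp (ψ : XD) : Monotone fun t => ‖ψ.comp (P t)‖ ^ 4 := by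
  intro s t hst
  refine pow_le_pow_left₀ (norm_nonneg _) ?_ 4
  have : ψ.comp (P s) = (ψ.comp (P t)).comp (P s) := by
    ext x
    change ψ (P s x) = ψ (P t (P s x))
    rw [P_P_of_le hst]
  rw [this]
  exact norm_comp_P_le _ _

theorem ctl_sy (ψ : XD) : Ctl (sy ψ) (fun t => ‖ψ.comp (P t)‖ ^ 4) := by
  have hmono := mono_comp ψ
  refine ⟨fun A s t hst => ?_, fun α I w s t hw hst hI => ?_⟩
  · set c : ℕ → ℝ := fun α => sy ψ α t - sy ψ α s with hc
    set Q : ℝ := ∑ α ∈ A, c α ^ 2 with hQ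
    have hQ0 : 0 ≤ Q := sum_nonneg fun _ _ => sq_nonneg _
    set y : XT := ∑ α ∈ A, c α • (del α t - del α s) with hy
    have h1 : ψ y = Q := by
      rw [hy, hQ, map_sum]
      refine sum_congr rfl fun α _ => ?_
      rw [map_smul, map_sub, smul_eq_mul, pow_two]
      rfl
    have h2 : ‖y‖ ^ 4 ≤ Q ^ 2 := by
      refine norm_pow_le_of_ev (by positivity) fun S => ?_
      have e : ev S y = ∑ α ∈ A, c α * (S.1 α t - S.1 α s) := by
        rw [hy, map_sum]
        refine sum_congr rfl fun α _ => ?_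
        rw [map_smul, map_sub, ev_del, ev_del, smul_eq_mul]
      have h3 : (ev S y) ^ 2 ≤ Q * ∑ α ∈ A, (S.1 α t - S.1 α s) ^ 2 := by
        rw [e]
        exact sum_mul_sq_le_sq_mul_sq _ _ _
      have h4 : (∑ α ∈ A, (S.1 α t - S.1 α s) ^ 2) ^ 2 ≤ 1 := S.2.single A hst
      calc (ev S y) ^ 4 = ((ev S y) ^ 2) ^ 2 := by ring
        _ ≤ (Q * ∑ α ∈ A, (S.1 α t - S.1 α s) ^ 2) ^ 2 := pow_le_pow_left₀ (sq_nonneg _) h3 2
        _ = Q ^ 2 * (∑ α ∈ A, (S.1 α t - S.1 α s) ^ 2) ^ 2 := mul_pow _ _ _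
        _ ≤ Q ^ 2 * 1 := mul_le_mul_of_nonneg_left h4 (by positivity)
        _ = Q ^ 2 := mul_one _
    have h3 : P t y = y := by
      rw [hy, map_sum]
      refine sum_congr rfl fun α _ => ?_
      rw [map_smul, map_sub, P_del, P_del, min_self, min_eq_left hst]
    have h4 : P s y = 0 := by
      rw [hy, map_sum]
      refine sum_eq_zero fun α _ => ?_
      rw [map_smul, map_sub, P_del, P_del, min_self, min_eq_right hst, sub_self, smul_zero]
    have h5 := sup_pow ψ hst h3 h4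
    rw [h1] at h5
    have h6 : 0 ≤ ‖ψ.comp (P t)‖ ^ 4 - ‖ψ.comp (P s)‖ ^ 4 := sub_nonneg.2 (hmono hst)
    change Q ^ 2 ≤ _
    rcases eq_or_lt_of_le hQ0 with h | h
    · rw [← h]
      simpa using h6
    · have h7 : Q ^ 2 * Q ^ 2 ≤ Q ^ 2 * (‖ψ.comp (P t)‖ ^ 4 - ‖ψ.comp (P s)‖ ^ 4) := by
        calc Q ^ 2 * Q ^ 2 = Q ^ 4 := by ring
          _ ≤ _ := h5
          _ ≤ _ := mul_le_mul_of_nonneg_right h2 h6
      exact le_of_mul_le_mul_left h7 (by positivity)
  · set c : ℕ → ℝ := fun l => sy ψ α (w (2 * l + 1)) - sy ψ α (w (2 * l)) with hc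
    obtain ⟨e, he1, he2⟩ : ∃ e : ℕ → ℝ, (∀ l, |e l| ≤ 1) ∧ ∀ l, e l * c l = |c l| := by
      refine ⟨fun l => if 0 ≤ c l then 1 else -1, fun l => ?_, fun l => ?_⟩
      · beta_reduce
        split_ifs <;> simp
      · beta_reduce
        split_ifs with h
        · rw [abs_of_nonneg h, one_mul]
        · rw [abs_of_neg (not_le.1 h)]; ring
    set y : XT := ∑ l ∈ I, e l • (del α (w (2 * l + 1)) - del α (w (2 * l)))
      with hy
    have h1 : ψ y = ∑ l ∈ I, |c l| := by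
      rw [hy, map_sum]
      refine sum_congr rfl fun l _ => ?_
      rw [map_smul, map_sub, smul_eq_mul]
      exact he2 l
    have h2 : ‖y‖ ^ 4 ≤ I.card := by
      refine norm_pow_le_of_ev (by positivity) fun S => ?_
      have ee : ev S y = ∑ l ∈ I, e l *
          (S.1 α (w (2 * l + 1)) - S.1 α (w (2 * l))) := by
        rw [hy, map_sum]
        refine sum_congr rfl fun l _ => ?_
        rw [map_smul, map_sub, ev_del, ev_del, smul_eq_mul]
      have h3 : |ev S y| ≤ ∑ l ∈ I, |S.1 α (w (2 * l + 1)) - S.1 α (w (2 * l))| := by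
        rw [ee]
        refine (abs_sum_le_sum_abs _ _).trans (sum_le_sum fun l _ => ?_)
        rw [abs_mul]
        calc _ ≤ 1 * |S.1 α (w (2 * l + 1)) - S.1 α (w (2 * l))| :=
              mul_le_mul_of_nonneg_right (he1 l) (abs_nonneg _)
          _ = _ := one_mul _
      obtain ⟨ω, g1, g2, g3, g4, g5⟩ := S.2.2
      have h4 := g5 α I w s t hw hst hI
      calc (ev S y) ^ 4 = |ev S y| ^ 4 := (pow4_abs _).symm
        _ ≤ (∑ l ∈ I, |S.1 α (w (2 * l + 1)) - S.1 α (w (2 * l))|) ^ 4 :=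
            pow_le_pow_left₀ (abs_nonneg _) h3 4
        _ ≤ I.card * (ω t - ω s) := h4
        _ ≤ I.card * 1 := by
            refine mul_le_mul_of_nonneg_left ?_ (Nat.cast_nonneg _)
            have := g3 t
            have := g2 s
            linarith
        _ = I.card := mul_one _
    have h3 : P t y = y := by
      rw [hy, map_sum]
      refine sum_congr rfl fun l hl => ?_
      have h4 : w (2 * l) ≤ w (2 * l + 1) := hw (by omega)
      have h5 := (hI l hl).2
      rw [map_smul, map_sub, P_del, P_del, min_eq_left h5, min_eq_left (h4.trans h5)]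
    have h4 : P s y = 0 := by
      rw [hy, map_sum]
      refine sum_eq_zero fun l hl => ?_
      have h4 : w (2 * l) ≤ w (2 * l + 1) := hw (by omega)
      have h5 := (hI l hl).1
      rw [map_smul, map_sub, P_del, P_del, min_eq_right h5, min_eq_right (h5.trans h4), sub_self,
        smul_zero]
    have h5 := sup_pow ψ hst h3 h4
    rw [h1] at h5
    have h6 : 0 ≤ ‖ψ.comp (P t)‖ ^ 4 - ‖ψ.comp (P s)‖ ^ 4 := sub_nonneg.2 (hmono hst)
    exact h5.trans (mul_le_mul_of_nonneg_right h2 h6)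

theorem adm_sy (ψ : XD) : Adm (sy ψ) (‖ψ‖ ^ 4) :=
  ⟨fun α t ht => by simp [sy, del_eq_zero ht], fun t => ‖ψ.comp (P t)‖ ^ 4, mono_comp ψ,
    fun t => by positivity, fun t => pow_le_pow_left₀ (norm_nonneg _) (norm_comp_P_le ψ t) 4,
    ctl_sy ψ⟩

theorem stop_four (ψ : XD) (T : ℕ) :
    ‖ψ.comp (P T)‖ ^ 4 + ‖ψ - ψ.comp (P T)‖ ^ 4 ≤ ‖ψ‖ ^ 4 := by
  have h := stop_split ψ (fun t => ‖ψ.comp (P t)‖ ^ 4) (‖ψ‖ ^ 4) (mono_comp ψ)
    (fun t => by positivity) (fun t => pow_le_pow_left₀ (norm_nonneg _) (norm_comp_P_le ψ t) 4)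
    (ctl_sy ψ) T
  linarith [h.2]

end Pool.Agent.H220.IC
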