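import Mathlib

/-! Asymptotic uniform smoothness and interlaced concentration: the definitions. -/

namespace Pool.Agent.H220.IC

/-- The modulus of asymptotic uniform smoothness of `X` at `t`: the supremum over unit vectors `x`
of the infimum over closed finite-codimensional subspaces `Y` of the supremum of `‖x + y‖ - 1` over
the vectors `y` of `Y` of norm at most `t`. -/
noncomputable def ausModulus (X : Type) [NormedAddCommGroup X] [NormedSpace ℝ X] (t : ℝ) : ℝ :=
  ⨆ x : {x : X // ‖x‖ = 1},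
    ⨅ Y : {Y : Submodule ℝ X // IsClosed (Y : Set X) ∧ FiniteDimensional ℝ (X ⧸ Y)},
      ⨆ y : {y : X // y ∈ Y.1 ∧ ‖y‖ ≤ t}, (‖x.1 + y.1‖ - 1)

/-- `X` is `p`-AUS. -/
def IsAUS (p : ℝ) (X : Type) [NormedAddCommGroup X] [NormedSpace ℝ X] : Prop :=
  ∃ c : ℝ, 0 < c ∧ ∀ t : ℝ, 0 < t → t ≤ 1 → ausModulus X t ≤ c * t ^ p

/-- `X` is `p`-AUSable: it is isomorphic to a `p`-AUS Banach space. -/
def IsAUSable (p : ℝ) (X : Type) [SeminormedAddCommGroup X] [NormedSpace ℝ X] : Prop :=
  ∃ (Z : Type) (_ : NormedAddCommGroup Z) (_ : NormedSpace ℝ Z),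
    CompleteSpace Z ∧ IsAUS p Z ∧ Nonempty (X ≃L[ℝ] Z)

/-- `X` is reflexive: the canonical map to the bidual is onto. -/
def IsReflexiveSpace (X : Type) [SeminormedAddCommGroup X] [NormedSpace ℝ X] : Prop :=
  Function.Surjective (NormedSpace.inclusionInDoubleDual ℝ X)

/-- The bidual of `X`, with its usual norm. -/
def Bidual (X : Type) [NormedAddCommGroup X] [NormedSpace ℝ X] : Type :=
  StrongDual ℝ (StrongDual ℝ X)

noncomputable instance (X : Type) [NormedAddCommGroup X] [NormedSpace ℝ X] :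
    NormedAddCommGroup (Bidual X) :=
  inferInstanceAs (NormedAddCommGroup (StrongDual ℝ (StrongDual ℝ X)))

noncomputable instance (X : Type) [NormedAddCommGroup X] [NormedSpace ℝ X] :
    NormedSpace ℝ (Bidual X) :=
  inferInstanceAs (NormedSpace ℝ (StrongDual ℝ (StrongDual ℝ X)))

/-- The canonical isometric embedding of `X` in its bidual. -/
noncomputable def toBidual (X : Type) [NormedAddCommGroup X] [NormedSpace ℝ X] :
    X →ₗᵢ[ℝ] Bidual X :=
  NormedSpace.inclusionInDoubleDualLi ℝ (E := X)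

/-- The canonical copy of `X` in its bidual. -/
noncomputable def canon (X : Type) [NormedAddCommGroup X] [NormedSpace ℝ X] :
    Submodule ℝ (Bidual X) :=
  LinearMap.range (toBidual X).toLinearMap

/-- The quotient `X** / X`. -/
abbrev BidualQuotient (X : Type) [NormedAddCommGroup X] [NormedSpace ℝ X] : Type :=
  Bidual X ⧸ canon X

/-- The Hamming distance of two `k`-element subsets of `ℕ` written increasingly. -/
def hamming {k : ℕ} (n m : Fin k ↪o ℕ) : ℕ := (Finset.univ.filter fun i => n i ≠ m i).card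

/-- The pair `(n, m)` is interlaced: `n_1 < m_1 < n_2 < m_2 < ... < n_k < m_k`. -/
def Interlaced {k : ℕ} (n m : Fin k ↪o ℕ) : Prop :=
  (∀ i, n i < m i) ∧ ∀ i j, i < j → m i < n j

/-- The Lipschitz bounds of a map on `k`-subsets with the Hamming distance. -/
def lipBounds {k : ℕ} {X : Type} [NormedAddCommGroup X] (f : (Fin k ↪o ℕ) → X) : Set ℝ :=
  {L : ℝ | 0 ≤ L ∧ ∀ n m, ‖f n - f m‖ ≤ L * hamming n m}

/-- The Lipschitz constant of a map on `k`-subsets with the Hamming distance. -/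
noncomputable def lipConst {k : ℕ} {X : Type} [NormedAddCommGroup X] (f : (Fin k ↪o ℕ) → X) : ℝ :=
  sInf (lipBounds f)

/-- The `p`-interlaced concentration inequality. -/
def InterlacedConcentration (p : ℝ) (X : Type) [NormedAddCommGroup X] [NormedSpace ℝ X] : Prop :=
  ∃ C : ℝ, 0 < C ∧ ∀ (k : ℕ) (f : (Fin k ↪o ℕ) → X), (lipBounds f).Nonempty →
    ∀ ε : ℝ, 0 < ε → ∃ M : Set ℕ, M.Infinite ∧
      ∀ n m : Fin k ↪o ℕ, (∀ i, n i ∈ M) → (∀ i, m i ∈ M) → Interlaced n m →
        ‖f n - f m‖ ≤ C * lipConst f * (k : ℝ) ^ (1 / p) + ε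

end Pool.Agent.H220.IC
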