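import Pool.Agent.H220.IC.A
import Pool.Agent.H220.IC.Def

/-!
# MP_a21e0e_an, Q2: the lemmas to be proved

The construction is a variation of the library construction for Q1. To see very similar (complete)
Lean proofs run `team-store fetch --alone /tmp/ic Pool/Graph/R_pool_sql_team_seeded_c8625f6e/K4H42/ICF.lean
Pool/Graph/R_pool_sql_team_seeded_c8625f6e/K4H42/ICH.lean Pool/Graph/R_pool_sql_team_seeded_c8625f6e/K4H42/ICI.lean
Pool/Graph/R_pool_sql_team_seeded_c8625f6e/K4H42/ICJ.lean`.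
There `Adm` is the quadratic variation; here `Adm` uses a control function, see `A.lean`.
-/

set_option autoImplicit false

open Finset

namespace Pool.Agent.H220.IC

/-- **S_bump.** Sums of arrays with disjoint time supports.

Proof. Let `ω_j` be controls of the `B j` (choose), `0 ≤ ω_j ≤ 16`. The control of the sum is
`ω = (8 + 2 m ^ 2) * ∑_{j < m} ω_j`; it is monotone, `≥ 0` and `≤ (8 + 2 m^2) * 16 m ≤ 160 m ^ 3`
(for `m = 0` all is zero). Adaptedness is clear.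
For each time `t` at most one `j` has `B j α t ≠ 0` for some `α` (`τ j < t < τ (j+1)`), so for an interval
`[s,t]` at most two `j` have a nonzero increment (compare `card_sq` and `bumps_norm` in the library file ICF).
(First condition) `(∑_j x_j)^2 ≤ 2 ∑_j x_j^2` if at most two `x_j` are nonzero. So
`∑_{α∈A} (ΔS)^2 ≤ 2 ∑_j y_j`, `y_j = ∑_{α∈A} (ΔB_j)^2`, and again at most two `y_j` are nonzero, so
`(∑ (ΔS)^2)^2 ≤ 4 (∑_j y_j)^2 ≤ 8 ∑_j y_j^2 ≤ 8 ∑_j (ω_j t - ω_j s)`.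
(Second condition) Let `I_j = {l ∈ I | the increment of B_j over the l-th interval is nonzero}`. Then
`x_j := ∑_{l∈I} |Δ_l B_j| = ∑_{l∈I_j} |Δ_l B_j|` has `x_j^4 ≤ |I_j| δ_j`, `δ_j = ω_j t - ω_j s`, and
`∑_j |I_j| ≤ 2 |I|` (each `l` is in at most two `I_j`). By Cauchy-Schwarz
`(∑_j x_j)^4 ≤ (m ∑_j x_j^2)^2 ≤ m^2 (∑_j sqrt(|I_j|) sqrt(δ_j))^2 ≤ m^2 (∑_j |I_j|) (∑_j δ_j)
  ≤ 2 m^2 |I| ∑_j δ_j`, and `∑_l |Δ_l S| ≤ ∑_j x_j`. -/
def S_bump : Prop :=
  ∀ (m : ℕ) (τ : ℕ → ℕ) (B : ℕ → ℕ → ℕ → ℝ), Monotone τ → (∀ j, Adm (B j) 16) →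
    (∀ j α t, t ≤ τ j → B j α t = 0) → (∀ j α t, τ (j + 1) ≤ t → B j α t = 0) →
    Adm (fun α t => ∑ j ∈ range m, B j α t) (160 * m ^ 3)

/-- The signs: blocks of length `N ^ 2`. -/
noncomputable def sg (N i : ℕ) : ℝ := if (i / N ^ 2) % 2 = 0 then 1 else -1

/-- The row vectors. -/
noncomputable def row (N a : ℕ) (t : ℕ → ℕ) : XT :=
  ∑ i ∈ range (2 * N ^ 6), (sg N i / N ^ 3) • del a (t i)

/-- The map, on sequences. -/
noncomputable def FF (N : ℕ) (u : ℕ → ℕ) : XT :=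
  ∑ p ∈ range (N ^ 6), row N (u p) (fun i => u (N ^ 6 + i))

/-- **S_row.** The norm of a row (compare `norm_row_le` in the library file ICH).

Proof. By `norm_le_of_ev` test with `S : Ball`. Write `L = N ^ 2`, `2 N ^ 6 = L * (2 * N ^ 4)`; as in
`sum_blocks2` of ICH, `∑_{i < 2N^6} sg i S a (t i) = ∑_{r<L} ∑_{b<N^4} (S a (t (L(2b)+r)) - S a (t (L(2b+1)+r)))`.
For each `r`, the second condition of the control of `S` with `I = range (N^4)`, `w l = t (L*l+r)`,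
`s = 0`, `t = ` a large time (for instance `w (2*N^4)`), gives
`(∑_b |..|)^4 ≤ N^4 * 1`, so `∑_b |..| ≤ N`. The total is at most `(1/N^3) * N^2 * N = 1`. -/
def S_row : Prop :=
  ∀ (N a : ℕ) (t : ℕ → ℕ), 1 ≤ N → Monotone t → ‖row N a t‖ ≤ 1

/-- **S_lip.** The Lipschitz bound (compare `lip_FF`, `norm_col_le` in the library file ICI; the same
decomposition). Changed rows contribute at most `1 + 1` each by `S_row`; a changed time `t_i ≠ t'_i`
contributes the norm of `∑_p (sg i / N^3) • (del (u p) (t i) - del (u p) (t' i))` over at most `N^6` rows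
`p`, whose labels are distinct, which is at most `(∑_p (1/N^3)^2)^(1/2) * 1 ≤ 1 ≤ 2`
(first condition: `∑_{α∈A} (ΔS α)^2 ≤ 1` for `S : Ball`, see `Adm.single`, and Cauchy-Schwarz). -/
def S_lip : Prop :=
  ∀ (N : ℕ) (u u' : ℕ → ℕ), 1 ≤ N → Monotone u → Monotone u' →
    Set.InjOn u (range (N ^ 6)) →
    ‖FF N u - FF N u'‖ ≤ 2 * ∑ p ∈ range (N ^ 6 + 2 * N ^ 6), if u p ≠ u' p then (1 : ℝ) else 0

/-- **S_cert.** The certificate (compare `cert` in the library file ICI, simpler here).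

Proof. Let `L = N^2`, `t_i = u (N^6 + i)`, `cnt t = #{i < 2N^6 | t_i ≤ t}`, `ν t = (cnt t + L - 1) / L`
(so `ν` is monotone, `ν = 0` before `t_0`, and `ν ≤ 2 N^4`),
`S α t = ∑_{p < N^6} if α = u p then B * (if ν t % 2 = 1 then 1 else 0) else 0` with `B = 1 / (2 N^4)`.
Adapted: for `t ≤ u p` we have `cnt t = 0`.
Control: `ω t = B^4 * (N^12 + 4 N^8) * ν t ≤ (N^12+4N^8) * 2N^4 / (16 N^16) ≤ 10/16 ≤ 1`.
First condition: `∑_{α∈A} (ΔS)^2 ≤ N^6 B^2 * 1[ν t ≠ ν s]`, its square is `≤ N^12 B^4 (ν t - ν s)`.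
Second condition: for row `u p`, `|Δ_l S| ≤ B * 1[ν jumps in the l-th interval]`; let `q` be the number of
`l ∈ I` with a jump; `q ≤ |I|` and `q ≤ ν t - ν s` (the intervals are disjoint and ordered, `ν` is monotone with
integer values) and `ν t - ν s ≤ 2N^4`, so `(B q)^4 ≤ B^4 * |I| * q^3 ≤ B^4 * |I| * (ν t - ν s) * (2N^4)^2`.
Value: at `t = t_i`, `cnt = i + 1`, `ν = i / L + 1`, so `S (u p) (t_i) = B * 1[(i/L) even]`, and
`ψ (FF N u) = N^6 * (1/N^3) * B * #{i < 2N^6 | i/L even} = N^6 * N^(-3) * B * N^6 = N^5 / 2`. -/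
def S_cert : Prop :=
  ∀ (N : ℕ) (u : ℕ → ℕ), 1 ≤ N →
    (∀ p q, p < q → q < N ^ 6 + 2 * N ^ 6 → u p < u q) →
    ∃ ψ : XD, ‖ψ‖ ≤ 1 ∧ ψ (FF N u) = N ^ 5 / 2 ∧
      ∀ α, (∀ p, p < N ^ 6 → α ≠ u p) → ∀ t, sy ψ α t = 0

/-- **S_conc.** (may assume `S_lip` and `S_cert`) Failure of the concentration inequality; compare
`not_conc` in the library file ICJ, which is the same argument.

Proof. Given `C`, take `N = M ^ 2` with `M > 12 C + 2`, `k = N^6 + 2 N^6 = 3 M^12`,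
`f n = FF N (ext n)`; `lipConst f ≤ 2`; for infinite `Mset` take `n i = nth (2i)`, `m i = nth (2i+1)`;
`S_cert` for `ext n` gives `ψ` with `ψ (f n) = N^5/2 = M^10/2`, `ψ (f m) = 0` as the row labels of `m` are not
labels of `n`. So `M^10/2 ≤ ‖f n - f m‖ ≤ C * 2 * (3 M^12)^(3/4) + 1 ≤ 6 C M^9 + 1` (use ε = 1; note
`(3 M^12)^(3/4) ≤ 3 M^9`), a contradiction. -/
def S_conc : Prop := ¬ InterlacedConcentration (4 / 3) XT

end Pool.Agent.H220.IC
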