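import Pool.Agent.H220.IC.E
import Pool.Agent.H220.IC.Stm

/-! The kernel of the quotient map is the canonical copy of the space. -/

namespace Pool.Agent.H220.IC

open Finset Filter Topology

theorem norm_sub_comp_P_le (ψ : XD) (T : ℕ) : ‖ψ - ψ.comp (P T)‖ ≤ ‖ψ‖ := by
  refine le_of_pow_le_pow_left₀ (n := 4) (by norm_num) (norm_nonneg _) ?_
  have := stop_four ψ T
  have : 0 ≤ ‖ψ.comp (P T)‖ ^ 4 := by positivity
  linarith

/-- Every functional is the norm limit of its stopped versions. -/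
theorem stop_approx (ψ : XD) (ε : ℝ) (hε : 0 < ε) :
    ∃ N0 : ℕ, ∀ N, N0 ≤ N → ‖ψ - ψ.comp (P N)‖ < ε := by
  rcases lt_or_ge ‖ψ‖ ε with h | h
  · exact ⟨0, fun N _ => lt_of_le_of_lt (norm_sub_comp_P_le ψ N) h⟩
  · have hpos : 0 < ‖ψ‖ := lt_of_lt_of_le hε h
    have h0 : 0 ≤ ‖ψ‖ ^ 4 - ε ^ 4 := by
      have := pow_le_pow_left₀ hε.le h 4
      linarith
    obtain ⟨r, hr0, hr2⟩ := exists_root _ h0
    have hrlt : r < ‖ψ‖ := by
      refine lt_of_pow_lt_pow_left₀ 4 hpos.le ?_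
      rw [hr2]
      have : 0 < ε ^ 4 := by positivity
      linarith
    obtain ⟨x, hx1, hx2⟩ := ψ.exists_lt_apply_of_lt_opNorm hrlt
    obtain ⟨N0, hN0⟩ := P_approx x ((‖ψ x‖ - r) / ‖ψ‖) (div_pos (by linarith) hpos)
    refine ⟨N0, fun N hN => ?_⟩
    have h1 := hN0 N hN
    rw [lt_div_iff₀ hpos] at h1
    have h2 : ‖ψ (P N x) - ψ x‖ ≤ ‖ψ‖ * ‖P N x - x‖ := by
      rw [← map_sub]; exact ψ.le_opNorm _
    have h3 : r < ‖ψ (P N x)‖ := by
      have h4 : ‖ψ x‖ ≤ ‖ψ (P N x)‖ + ‖ψ (P N x) - ψ x‖ := by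
        have := norm_sub_le (ψ (P N x)) (ψ (P N x) - ψ x)
        rwa [sub_sub_cancel] at this
      linarith
    have h5 : ‖ψ (P N x)‖ ≤ ‖ψ.comp (P N)‖ := by
      have h6 := (ψ.comp (P N)).le_opNorm x
      have h7 : ‖ψ.comp (P N)‖ * ‖x‖ ≤ ‖ψ.comp (P N)‖ * 1 :=
        mul_le_mul_of_nonneg_left hx1.le (norm_nonneg _)
      rw [mul_one] at h7
      exact h6.trans h7
    have h8 : r < ‖ψ.comp (P N)‖ := lt_of_lt_of_le h3 h5
    have h9 := stop_four ψ N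
    have h10 : r ^ 4 < ‖ψ.comp (P N)‖ ^ 4 := pow_lt_pow_left₀ h8 hr0 (by norm_num)
    have h11 : ‖ψ - ψ.comp (P N)‖ ^ 4 < ε ^ 4 := by linarith
    exact lt_of_pow_lt_pow_left₀ 4 hε.le h11

/-- The stopped vector of the bidual. -/
noncomputable def ph (φ : XDD) (T : ℕ) : XT :=
  ∑ t ∈ range T, ∑ α ∈ range T, φ (J α (t + 1)) • (del α (t + 1) - del α t)

theorem ph_spec (φ : XDD) (T : ℕ) (ψ : XD) : ψ (ph φ T) = φ (ψ.comp (P T)) := by
  have h : ψ.comp (P T) = ∑ t ∈ range T, ∑ α ∈ range T,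
      (ψ (del α (t + 1) - del α t)) • J α (t + 1) := by
    refine sy_ext fun β s => ?_
    unfold sy P
    simp only [ContinuousLinearMap.comp_apply, _root_.sum_apply, map_sum,
      ContinuousLinearMap.smulRight_apply, map_smul, _root_.smul_apply, smul_eq_mul]
    refine sum_congr rfl fun t _ => sum_congr rfl fun α _ => ?_
    ring
  rw [h]
  unfold ph
  simp only [map_sum, map_smul, smul_eq_mul]
  refine sum_congr rfl fun t _ => sum_congr rfl fun α _ => ?_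
  ring

/-- Closed bumps. -/
theorem bump (φ : XDD) (hφ : Q φ = 0) (ε : ℝ) (hε : 0 < ε) (T : ℕ)
    (hT : ε < ‖φ - NormedSpace.inclusionInDoubleDual ℝ XT (ph φ T)‖) :
    ∃ T' : ℕ, T < T' ∧ ∃ B : XD, ‖B‖ ≤ 2 ∧ ε / 2 ≤ φ B ∧ (∀ α t, t ≤ T → sy B α t = 0) ∧
      ∀ α t, T' ≤ t → sy B α t = 0 := by
  -- the residual
  obtain ⟨ψ, hψ1, hψ2⟩ := (φ - NormedSpace.inclusionInDoubleDual ℝ XT
    (ph φ T)).exists_lt_apply_of_lt_opNorm hT
  have e1 : (φ - NormedSpace.inclusionInDoubleDual ℝ XT (ph φ T)) ψ = φ (ψ - ψ.comp (P T)) := by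
    change φ ψ - ψ (ph φ T) = _
    rw [ph_spec, map_sub]
  rw [e1] at hψ2
  obtain ⟨R, hR1, hR2, hR3⟩ : ∃ R : XD, ‖R‖ ≤ 1 ∧ ε < φ R ∧ ∀ α t, t ≤ T → sy R α t = 0 := by
    have hn : ‖ψ - ψ.comp (P T)‖ ≤ 1 := by
      have h1 : ‖ψ - ψ.comp (P T)‖ ≤ ‖ψ‖ := norm_sub_comp_P_le ψ T
      linarith
    have hs : ∀ α t, t ≤ T → sy (ψ - ψ.comp (P T)) α t = 0 := by
      intro α t ht
      rw [sy_sub, sy_comp_P, min_eq_left ht, sub_self]
    rcases le_total 0 (φ (ψ - ψ.comp (P T))) with h0 | h0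
    · refine ⟨ψ - ψ.comp (P T), hn, ?_, hs⟩
      rwa [Real.norm_of_nonneg h0] at hψ2
    · refine ⟨-(ψ - ψ.comp (P T)), ?_, ?_, fun α t ht => ?_⟩
      · rw [norm_neg]; exact hn
      · rw [map_neg]
        rwa [Real.norm_of_nonpos h0] at hψ2
      · have h1 := hs α t ht
        change -(sy (ψ - ψ.comp (P T)) α t) = 0
        rw [h1, neg_zero]
  -- choose N
  obtain ⟨N0, hN0⟩ := stop_approx R (ε / (4 * (‖φ‖ + 1))) (by positivity)
  set N := max N0 T with hN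
  have hNs := hN0 N (le_max_left _ _)
  have hNT : T ≤ N := le_max_right _ _
  -- the vector b
  have hmem : Memℓp (fun α : ℕ => (sy R α N : ℝ)) 2 := by
    refine memℓp_gen' (C := ‖R‖ ^ 2) fun s => ?_
    simpa using sum_sq_sy_le R s N
  let b : HS := ⟨fun α => sy R α N, hmem⟩
  have hb : ∀ α, b α = sy R α N := fun _ => rfl
  have hbn : ‖b‖ ≤ 1 := by
    have h1 : ‖b‖ ≤ ‖R‖ := by
      refine lp.norm_le_of_forall_sum_le (by norm_num) (norm_nonneg _) fun s => ?_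
      simpa using sum_sq_sy_le R s N
    linarith
  have hlim : Tendsto (fun T => φ (U T b)) uf (𝓝 0) := by
    have := Q_spec φ b
    rwa [hφ] at this
  obtain ⟨N', hN'1, hN'2⟩ : ∃ N', N + 1 ≤ N' ∧ |φ (U N' b)| < ε / 4 := by
    have h1 : ∀ᶠ T in (uf : Filter ℕ), dist (φ (U T b)) 0 < ε / 4 :=
      Metric.tendsto_nhds.1 hlim _ (by linarith)
    have h2 : ∀ᶠ T in (uf : Filter ℕ), N + 1 ≤ T :=
      Filter.Eventually.filter_mono uf_le (eventually_ge_atTop (N + 1))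
    obtain ⟨N', h3, h4⟩ := (h1.and h2).exists
    refine ⟨N', h4, ?_⟩
    simpa using h3
  refine ⟨N', by omega, R.comp (P N) - U N' b, ?_, ?_, ?_, ?_⟩
  · calc ‖R.comp (P N) - U N' b‖ ≤ ‖R.comp (P N)‖ + ‖U N' b‖ := norm_sub_le _ _
      _ ≤ 1 + 1 := add_le_add ((norm_comp_P_le R N).trans hR1) ((norm_U_le N' b).trans hbn)
      _ = 2 := by norm_num
  · have e2 : φ (R.comp (P N) - U N' b) = φ R - φ (R - R.comp (P N)) - φ (U N' b) := by
      rw [map_sub, map_sub]; ring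
    rw [e2]
    have h1 : |φ (R - R.comp (P N))| ≤ ε / 4 := by
      have h2 : ‖φ (R - R.comp (P N))‖ ≤ ‖φ‖ * ‖R - R.comp (P N)‖ := φ.le_opNorm _
      rw [lt_div_iff₀ (by positivity)] at hNs
      rw [Real.norm_eq_abs] at h2
      nlinarith [norm_nonneg (R - R.comp (P N)), norm_nonneg φ]
    have h3 := abs_le.1 h1
    have h4 := abs_lt.1 hN'2
    linarith [h3.2, h4.2]
  · intro α t ht
    rw [sy_sub, sy_comp_P, min_eq_left (ht.trans hNT), hR3 α t ht, sy_U, if_neg (by omega),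
      sub_self]
  · intro α t ht
    rw [sy_sub, sy_comp_P, min_eq_right (by omega), sy_U, hb]
    by_cases h1 : α < N'
    · rw [if_pos (by omega), if_pos h1, sub_self]
    · have h2 : sy R α N = 0 := (adm_sy R).1 α N (by omega)
      rw [h2]
      simp

theorem bumps_norm (hbump : S_bump) (τ : ℕ → ℕ) (hτ : Monotone τ) (B : ℕ → XD)
    (hB : ∀ j, ‖B j‖ ≤ 2)
    (h1 : ∀ j α t, t ≤ τ j → sy (B j) α t = 0) (h2 : ∀ j α t, τ (j + 1) ≤ t → sy (B j) α t = 0)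
    (n : ℕ) : ‖∑ j ∈ range n, B j‖ ^ 4 ≤ 160 * n ^ 3 := by
  apply norm_pow_le_of_adm
  have hs : sy (∑ j ∈ range n, B j) = fun α t => ∑ j ∈ range n, sy (B j) α t := by
    funext α t
    simp only [sy, _root_.sum_apply]
  rw [hs]
  refine hbump n τ (fun j => sy (B j)) hτ (fun j => (adm_sy (B j)).mono ?_) h1 h2
  calc ‖B j‖ ^ 4 ≤ 2 ^ 4 := pow_le_pow_left₀ (norm_nonneg _) (hB j) 4
    _ = 16 := by norm_num

theorem ker_Q (hbump : S_bump) (φ : XDD) (hφ : Q φ = 0) :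
    φ ∈ LinearMap.range (NormedSpace.inclusionInDoubleDual ℝ XT).toLinearMap := by
  by_contra hcon
  -- the range is closed
  have hcl : IsClosed (Set.range (NormedSpace.inclusionInDoubleDual ℝ XT)) := by
    have h : IsComplete (Set.range (NormedSpace.inclusionInDoubleDual ℝ XT)) :=
      (NormedSpace.inclusionInDoubleDualLi ℝ (E := XT)).isometry.isUniformInducing.isComplete_range
    exact h.isClosed
  have hnot : φ ∉ Set.range (NormedSpace.inclusionInDoubleDual ℝ XT) := hcon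
  obtain ⟨ε, hε, hball⟩ := Metric.isOpen_iff.1 hcl.isOpen_compl φ hnot
  have hfar : ∀ T, ε / 2 < ‖φ - NormedSpace.inclusionInDoubleDual ℝ XT (ph φ T)‖ := by
    intro T
    by_contra hc
    rw [not_lt] at hc
    have h1 : NormedSpace.inclusionInDoubleDual ℝ XT (ph φ T) ∈ Metric.ball φ ε := by
      rw [Metric.mem_ball, dist_comm]
      have h2 : dist φ (NormedSpace.inclusionInDoubleDual ℝ XT (ph φ T)) =
        ‖φ - NormedSpace.inclusionInDoubleDual ℝ XT (ph φ T)‖ :=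
        dist_eq_norm φ (NormedSpace.inclusionInDoubleDual ℝ XT (ph φ T))
      rw [h2]
      linarith
    exact hball h1 ⟨_, rfl⟩
  have hb := fun T => bump φ hφ (ε / 2) (by linarith) T (hfar T)
  choose nx hnx Bf hBf1 hBf2 hBf3 hBf4 using hb
  let τ : ℕ → ℕ := fun j => nx^[j] 0
  have hτs : ∀ j, τ (j + 1) = nx (τ j) := fun j => Function.iterate_succ_apply' nx j 0
  have hτ : Monotone τ := monotone_nat_of_le_succ fun j => by
    rw [hτs]; exact (hnx _).le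
  have hn : ∀ n : ℕ, ‖∑ j ∈ range n, Bf (τ j)‖ ^ 4 ≤ 160 * n ^ 3 := by
    intro n
    refine bumps_norm hbump τ hτ (fun j => Bf (τ j)) (fun j => hBf1 _)
      (fun j α t ht => hBf3 _ α t ht) (fun j α t ht => hBf4 _ α t ?_) n
    rw [← hτs]; exact ht
  have hl : ∀ n : ℕ, n * (ε / 4) ≤ φ (∑ j ∈ range n, Bf (τ j)) := by
    intro n
    rw [map_sum]
    have h1 : ∀ j ∈ range n, ε / 4 ≤ φ (Bf (τ j)) := by
      intro j _
      have := hBf2 (τ j)
      linarith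
    have h2 := sum_le_sum h1
    rwa [sum_const, card_range, nsmul_eq_mul] at h2
  have hkey : ∀ n : ℕ, (n * (ε / 4)) ^ 4 ≤ ‖φ‖ ^ 4 * (160 * n ^ 3) := by
    intro n
    have h1 : (n : ℝ) * (ε / 4) ≤ ‖φ‖ * ‖∑ j ∈ range n, Bf (τ j)‖ :=
      (hl n).trans ((le_abs_self _).trans (φ.le_opNorm _))
    have h2 := pow_le_pow_left₀ (by positivity) h1 4
    rw [mul_pow ‖φ‖] at h2
    exact h2.trans (mul_le_mul_of_nonneg_left (hn n) (by positivity))
  obtain ⟨n, hn1⟩ := exists_nat_gt (‖φ‖ ^ 4 * 160 / (ε / 4) ^ 4)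
  have hnpos : (0 : ℝ) < n := lt_of_le_of_lt (by positivity) hn1
  rw [div_lt_iff₀ (by positivity)] at hn1
  have h3 := hkey n
  have h4 : (n : ℝ) ^ 3 * (n * (ε / 4) ^ 4) ≤ n ^ 3 * (‖φ‖ ^ 4 * 160) := by
    calc (n : ℝ) ^ 3 * (n * (ε / 4) ^ 4) = (n * (ε / 4)) ^ 4 := by ring
      _ ≤ _ := h3
      _ = _ := by ring
  have h5 := le_of_mul_le_mul_left h4 (by positivity)
  linarith

end Pool.Agent.H220.IC
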