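import Pool.Agent.H220.IC.F
import Pool.Agent.H307.IC.Bump

/-! Complementation in the bidual; the quotient is a Hilbert space. -/

namespace Pool.Agent.H220.IC

open Finset Filter Topology

/-- Riesz representation over the reals. -/
noncomputable def rz : StrongDual ℝ HS →L[ℝ] HS where
  toFun f := (InnerProductSpace.toDual ℝ HS).symm f
  map_add' f g := by simp
  map_smul' c f := by simp
  cont := (InnerProductSpace.toDual ℝ HS).symm.continuous

theorem inner_rz (f : StrongDual ℝ HS) (b : HS) : inner ℝ (rz f) b = f b := by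
  change inner ℝ ((InnerProductSpace.toDual ℝ HS).symm f) b = f b
  rw [InnerProductSpace.toDual_symm_apply]

/-- The quotient map with values in the Hilbert space. -/
noncomputable def QZ0 : XDD →L[ℝ] HS := rz.comp Q

/-- The quotient map with values in the Hilbert space. -/
noncomputable def QZ : Bidual XT →L[ℝ] HS := QZ0

/-- The lift. -/
noncomputable def LZ : HS →L[ℝ] Bidual XT := Ls

theorem QZ_LZ (c : HS) : QZ (LZ c) = c := by
  refine ext_inner_right ℝ fun b => ?_
  change inner ℝ (rz (Q (Ls c))) b = _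
  rw [inner_rz, Q_Ls]

theorem QZ_incl (x : XT) : QZ (toBidual XT x) = 0 := by
  have h : Q (NormedSpace.inclusionInDoubleDual ℝ XT x) = 0 := by
    ext b
    exact Q_incl x b
  change rz (Q (NormedSpace.inclusionInDoubleDual ℝ XT x)) = 0
  rw [h, map_zero]

theorem Q_eq_zero {φ : Bidual XT} (h : QZ φ = 0) : Q φ = 0 := by
  ext b
  have h1 : inner ℝ (QZ φ) b = Q φ b := inner_rz (Q φ) b
  rw [h, inner_zero_left] at h1
  exact h1.symm

theorem canon_le_ker : canon XT ≤ LinearMap.ker QZ.toLinearMap := by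
  rintro _ ⟨x, rfl⟩
  exact QZ_incl x

theorem mem_canon {φ : Bidual XT} (h : QZ φ = 0) : φ ∈ canon XT := ker_Q Pool.Agent.H307.IC.s_bump φ (Q_eq_zero h)

theorem sub_mem_canon (φ : Bidual XT) : φ - LZ (QZ φ) ∈ canon XT := by
  apply mem_canon
  rw [map_sub, QZ_LZ, sub_self]

theorem complemented : (canon XT).ClosedComplemented := by
  refine ⟨((ContinuousLinearMap.id ℝ (Bidual XT)) - LZ.comp QZ).codRestrict (canon XT)
    fun φ => sub_mem_canon φ, fun x => ?_⟩
  apply Subtype.ext
  change x.1 - LZ (QZ x.1) = x.1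
  have h : QZ x.1 = 0 := canon_le_ker x.2
  rw [h, map_zero, sub_zero]

/-- The quotient is isomorphic to the Hilbert space. -/
noncomputable def quotEquiv : (Bidual XT ⧸ canon XT) ≃L[ℝ] HS :=
  ContinuousLinearEquiv.equivOfInverse ((canon XT).liftQL QZ canon_le_ker)
    ((canon XT).mkQL.comp LZ)
    (by
      intro q
      obtain ⟨φ, rfl⟩ := (canon XT).mkQ_surjective q
      change (canon XT).mkQ (LZ (QZ φ)) = (canon XT).mkQ φ
      rw [← sub_eq_zero, ← map_sub]
      rw [Submodule.mkQ_apply, Submodule.Quotient.mk_eq_zero]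
      rw [← neg_sub]
      exact (canon XT).neg_mem (sub_mem_canon φ))
    (by
      intro c
      change QZ (LZ c) = c
      exact QZ_LZ c)

theorem reflexive_HS : IsReflexiveSpace HS := by
  intro φ
  let f : HS →L[ℝ] ℝ :=
    { toFun := fun x => φ (InnerProductSpace.toDual ℝ HS x)
      map_add' := fun x y => by simp
      map_smul' := fun c x => by simp
      cont := φ.continuous.comp (InnerProductSpace.toDual ℝ HS).continuous }
  refine ⟨rz f, ?_⟩
  ext g
  change g (rz f) = φ g
  obtain ⟨y, rfl⟩ := (InnerProductSpace.toDual ℝ HS).surjective g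
  rw [InnerProductSpace.toDual_apply_apply, real_inner_comm, inner_rz]
  rfl

theorem reflexive_of_equiv {V W : Type} [SeminormedAddCommGroup V] [NormedSpace ℝ V]
    [SeminormedAddCommGroup W] [NormedSpace ℝ W] (e : V ≃L[ℝ] W) (h : IsReflexiveSpace W) :
    IsReflexiveSpace V := by
  intro φ
  obtain ⟨y, hy⟩ := h (φ.comp ((ContinuousLinearMap.compL ℝ V W ℝ).flip e.toContinuousLinearMap))
  refine ⟨e.symm y, ?_⟩
  ext f
  have h1 := congrArg (fun F : StrongDual ℝ (StrongDual ℝ W) =>
    F (f.comp e.symm.toContinuousLinearMap)) hy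
  change f (e.symm y) = φ ((f.comp e.symm.toContinuousLinearMap).comp
    e.toContinuousLinearMap) at h1
  change f (e.symm y) = φ f
  rw [h1]
  congr 1
  ext v
  simp

theorem aus_HS : IsAUS 2 HS := by
  refine ⟨1, one_pos, fun t ht0 ht1 => ?_⟩
  rw [one_mul]
  unfold ausModulus
  refine Real.iSup_le (fun x => ?_) (by positivity)
  let g : HS →L[ℝ] ℝ := InnerProductSpace.toDual ℝ HS x.1
  have hfd : FiniteDimensional ℝ (HS ⧸ LinearMap.ker g.toLinearMap) := by
    have hr : FiniteDimensional ℝ (LinearMap.range g.toLinearMap) := inferInstance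
    exact (LinearMap.quotKerEquivRange g.toLinearMap).symm.finiteDimensional
  let Y : {Y : Submodule ℝ HS // IsClosed (Y : Set HS) ∧ FiniteDimensional ℝ (HS ⧸ Y)} :=
    ⟨LinearMap.ker g.toLinearMap, g.isClosed_ker, hfd⟩
  refine ciInf_le_of_le ?_ Y ?_
  · refine ⟨0, ?_⟩
    rintro _ ⟨Z, rfl⟩
    refine Real.iSup_nonneg' ⟨⟨0, Z.1.zero_mem, by simpa using ht0.le⟩, ?_⟩
    simp [x.2]
  · refine Real.iSup_le (fun y => ?_) (by positivity)
    have hy : inner ℝ x.1 y.1 = 0 := y.2.1
    have hyt : ‖y.1‖ ≤ t := y.2.2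
    have h1 : ‖x.1 + y.1‖ * ‖x.1 + y.1‖ = ‖x.1‖ * ‖x.1‖ + ‖y.1‖ * ‖y.1‖ :=
      norm_add_sq_eq_norm_sq_add_norm_sq_of_inner_eq_zero _ _ hy
    rw [x.2] at h1
    have e2 : t ^ (2 : ℝ) = t ^ (2 : ℕ) := by
      rw [← Real.rpow_natCast]; norm_num
    rw [e2]
    have h2 : ‖y.1‖ * ‖y.1‖ ≤ t * t := mul_le_mul hyt hyt (norm_nonneg _) ht0.le
    have h3 : ‖x.1 + y.1‖ ≤ 1 + t ^ (2 : ℕ) := by
      by_contra hc
      rw [not_le] at hc
      have h4 : (1 + t ^ 2) * (1 + t ^ 2) < ‖x.1 + y.1‖ * ‖x.1 + y.1‖ :=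
        mul_lt_mul'' hc hc (by positivity) (by positivity)
      nlinarith [sq_nonneg (t ^ 2)]
    linarith

theorem quot_reflexive : IsReflexiveSpace (BidualQuotient XT) :=
  reflexive_of_equiv quotEquiv reflexive_HS

theorem quot_ausable : IsAUSable 2 (BidualQuotient XT) :=
  ⟨HS, inferInstance, inferInstance, inferInstance, aus_HS, ⟨quotEquiv⟩⟩

end Pool.Agent.H220.IC
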